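import Pool.Agent.MP_fcd29e_an.H85.CLOb

/-!
The local theorem.
-/

set_option autoImplicit false

open Complex Set Filter Topology Metric Pool.Agent.MP_fcd29e_an.H11
open scoped ContDiff

namespace Pool.Agent.MP_fcd29e_an.H85

theorem two_le : (2 : WithTop ℕ∞) ≤ ∞ := by norm_cast

theorem slo (hHS : SHS) (hLV : SLV) (hLE : SLE) (hLY : SLY) (hLG : SLG) : SLO := by
  intro U W κ β _ _ _ _ _ _ _ _ _ _ _ _ Jr a k ET ER F h p₀ hJ hp₀ ha ha0 hal hk hk0 hkl hF hF0 hF1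
    hET hET0 hER hER0 hh hh0 hh1
  obtain ⟨C₀, hσ⟩ := right_inv Jr
  obtain ⟨c₁, C₁, hc₁, hY⟩ := hLY U κ Jr a (p₀.1, p₀.2.1) hJ hp₀.1 ha ha0 hal
  obtain ⟨c₂, C₂, hc₂, hG⟩ := hLG U W β k F p₀ hp₀.2 hk hk0 hkl hF hF0 hF1
  obtain ⟨C₃, hE⟩ := (hLE U W κ Jr ET p₀ hp₀ hET (hET0.mono fun p hp hpK =>
    ⟨hp.2 hpK.2, hp.1 hpK⟩)).2 (hET0.mono fun p hp => hp.2)
  obtain ⟨C₄, hE'⟩ := (hLE U W κ Jr ER p₀ hp₀ hER hER0).1
  obtain ⟨C₅, hR⟩ := hs_bd ((hLV.re _ h p₀ 0 hh).1.self_of_nhds)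
  let π : (ℂ × U × W) →L[ℝ] ℂ × U := (ContinuousLinearMap.fst ℝ ℂ (U × W)).prod
    ((ContinuousLinearMap.fst ℝ U W).comp (ContinuousLinearMap.snd ℝ ℂ (U × W)))
  have hπ : Tendsto π (𝓝 p₀) (𝓝 (p₀.1, p₀.2.1)) := π.continuous.tendsto p₀
  let L : (ℂ × U) →L[ℝ] (κ → ℝ) := Jr.comp (ContinuousLinearMap.snd ℝ ℂ U)
  have hd : ∀ᶠ p in 𝓝 p₀, fderiv ℂ h p ≠ 0 := hh.fderiv.continuousAt.eventually_ne hh1
  obtain ⟨C, hC, b₀, b₁, b₂, b₃, b₄, b₅⟩ : ∃ C : ℝ, 1 ≤ C ∧ C₀ ≤ C ∧ C₁ ≤ C ∧ C₂ ≤ C ∧ C₃ ≤ C ∧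
      C₄ ≤ C ∧ C₅ ≤ C := by
    refine ⟨max 1 (max C₀ (max C₁ (max C₂ (max C₃ (max C₄ C₅))))), ?_⟩
    simp
  have m₁ : min c₁ c₂ ≤ c₁ := min_le_left _ _
  have m₂ : min c₁ c₂ ≤ c₂ := min_le_right _ _
  have hev : ∀ᶠ p in 𝓝 p₀, Pt Jr (fun q => a (q.1, q.2.1) * rsq (Jr q.2.1)) ET
      (fun q => k q * nsq (F q)) (fun q => (h q).re) ER (min c₁ c₂) C p := by
    filter_upwards [hπ.eventually hY, hπ.eventually ha, hG, hE, hE', hR, hd, hk, hET, hER, hET0,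
      hER0, hF0, hh0, hF.eventually_analyticAt, hh.eventually_analyticAt] with p hY ha hG hE hE'
      hR hd hk hET hER hET0 hER0 hF0 hh0 hF hh
    have sg : ContDiffAt ℝ 2 (fun q : ℂ × U => a q * rsq (Jr q.2)) (π p) :=
      (ha.mul (rsq_cd L).contDiffAt).of_le two_le
    have hsA : ∀ v, hs (fun q : ℂ × U × W => a (q.1, q.2.1) * rsq (Jr q.2.1)) p v =
        hs (fun q : ℂ × U => a q * rsq (Jr q.2)) (π p) (π v) := fun v => hs_lin hHS π v sg
    have sN := (hLV.nsq _ β F p 0 hF).1.self_of_nhds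
    have sR := (hLV.re _ h p 0 hh).1.self_of_nhds
    have hn : 0 ≤ nn Jr p := add_nonneg (norm_nonneg _) (norm_nonneg _)
    refine ⟨sg.comp p π.contDiff.contDiffAt, hET.of_le two_le, (hk.mul sN).of_le two_le,
      sR.of_le two_le, hER.of_le two_le, fun v => ?_, fun v hv => ?_, fun v => ?_, fun v hv => ?_,
      fun v => ?_, fun v => ?_, fun v => (hLV.re _ h p v hh).2.1, fun v => ?_, fun hK => ?_⟩
    · have e : lev (fun q : ℂ × U × W => a (q.1, q.2.1) * rsq (Jr q.2.1)) p v =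
          lev (fun q : ℂ × U => a q * rsq (Jr q.2)) (π p) (π v) := by
        unfold lev
        rw [hsA, hsA]
        rfl
      rw [e]
      refine le_trans ?_ (hY (π v)).1
      change _ ≤ c₁ * (‖Jr p.2.1‖ ^ 2 * ‖v.1‖ ^ 2 + ‖v.2.1‖ ^ 2)
      gcongr
    · rw [hsA]
      refine le_trans ?_ ((hY (π v)).2 hv)
      change _ ≤ c₁ * ‖Jr v.2.1‖ ^ 2 - C₁ * ‖Jr p.2.1‖ * ‖v.2.1‖ ^ 2
      gcongr
    · refine le_trans ?_ (hG v).1
      gcongr
    · refine le_trans ?_ ((hG v).2 hv)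
      gcongr
    · refine (hE v).trans ?_
      gcongr
    · refine (hE' v).trans ?_
      gcongr
    · refine (hR v).trans ?_
      gcongr
    · let L' : (ℂ × U × W) →L[ℝ] (κ → ℝ) := L.comp π
      obtain ⟨r0, r1⟩ := rsq_fd L' (p := p) hK.1
      have hFp : F p = 0 := hF0 hK.2
      have n0 : nsq (F p) = 0 := by simp [nsq, hFp]
      have n1 : fderiv ℝ (fun q => nsq (F q)) p = 0 := by
        refine ContinuousLinearMap.ext fun v => ?_
        rw [(hLV.nsq _ β F p v hF).2.2, hFp]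
        simp [ip]
      refine ⟨⟨?_, hET0.2 hK.2, ?_, ?_, (hER0 hK).1⟩, ?_, hET0.1 hK, ?_, (hER0 hK).2, ?_⟩
      · exact mul_eq_zero_of_right _ r0
      · exact mul_eq_zero_of_right _ n0
      · simp [hh0 hK]
      · exact fd_mul0 (a := fun q => a (π q)) (S := fun q => rsq (L' q))
          ((ha.comp p π.contDiff.contDiffAt).differentiableAt (by simp))
          ((rsq_cd L').contDiffAt.differentiableAt (by simp)) r0 r1
      · exact fd_mul0 (hk.differentiableAt (by simp)) (sN.differentiableAt (by simp)) n0 n1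
      · intro hz
        apply hd
        refine ContinuousLinearMap.ext fun v => ?_
        have e1 := (hLV.re _ h p v hh).2.2
        have e2 := (hLV.re _ h p (I • v) hh).2.2
        rw [hz] at e1 e2
        rw [(fderiv ℂ h p).map_smul] at e2
        apply Complex.ext
        · simpa using e1.symm
        · simpa using e2.symm
  obtain ⟨r, hr, hball⟩ := Metric.eventually_nhds_iff_ball.1 hev
  refine core hHS hr (lt_min hc₁ hc₂) hC (fun u => ?_) hball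
  obtain ⟨η, e1, e2⟩ := hσ u
  refine ⟨η, e1, e2.trans ?_⟩
  gcongr

end Pool.Agent.MP_fcd29e_an.H85
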