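import Pool.Agent.MP_fcd29e_an.H11.CS

/-!
Elementary lemmas for the local theorem.
-/

set_option autoImplicit false

open Complex Set Filter Topology Metric Pool.Agent.MP_fcd29e_an.H11
open scoped ContDiff

namespace Pool.Agent.MP_fcd29e_an.H85

theorem right_inv {U κ : Type} [NormedAddCommGroup U] [NormedSpace ℝ U] [FiniteDimensional ℝ U]
    [Fintype κ] (Jr : U →L[ℝ] (κ → ℝ)) :
    ∃ C : ℝ, ∀ u, ∃ η, Jr η = Jr u ∧ ‖η‖ ≤ C * ‖Jr u‖ := by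
  obtain ⟨g, hg⟩ := LinearMap.exists_rightInverse_of_surjective
    (Jr : U →ₗ[ℝ] (κ → ℝ)).rangeRestrict (LinearMap.range_rangeRestrict _)
  refine ⟨‖LinearMap.toContinuousLinearMap g‖, fun u => ?_⟩
  let y : LinearMap.range (Jr : U →ₗ[ℝ] (κ → ℝ)) := ⟨Jr u, u, rfl⟩
  refine ⟨g y, ?_, ?_⟩
  · have := congrArg Subtype.val (LinearMap.congr_fun hg y)
    simpa using this
  · exact (LinearMap.toContinuousLinearMap g).le_opNorm y

theorem conv1 (f f' f'' : ℝ → ℝ) (h : ∀ τ ∈ Icc (0 : ℝ) 1, HasDerivAt f (f' τ) τ ∧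
    HasDerivAt f' (f'' τ) τ ∧ 0 < f'' τ) (h0 : f 0 = 0) :
    (f' 0 = 0 → 0 < f 1) ∧ (f 1 = 0 → 0 < f' 1) := by
  have hc : ContinuousOn f (Icc 0 1) := fun τ hτ => (h τ hτ).1.continuousAt.continuousWithinAt
  have hc' : ContinuousOn f' (Icc 0 1) := fun τ hτ =>
    (h τ hτ).2.1.continuousAt.continuousWithinAt
  have hm : StrictMonoOn f' (Icc 0 1) := by
    refine strictMonoOn_of_deriv_pos (convex_Icc 0 1) hc' fun τ hτ => ?_
    have hτ' := interior_subset hτ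
    rw [(h τ hτ').2.1.deriv]
    exact (h τ hτ').2.2
  obtain ⟨ξ, hξ, hξ'⟩ := exists_hasDerivAt_eq_slope f f' zero_lt_one hc
    fun τ hτ => (h τ (Ioo_subset_Icc_self hτ)).1
  have e : f' ξ = f 1 := by rw [hξ', h0]; ring
  constructor
  · intro h1
    have := hm (left_mem_Icc.2 zero_le_one) (Ioo_subset_Icc_self hξ) hξ.1
    linarith
  · intro h1
    have := hm (Ioo_subset_Icc_self hξ) (right_mem_Icc.2 zero_le_one) hξ.2
    linarith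

theorem ineq_lev {c C l₁ δ y w α β γ LA LG E : ℝ} (hc : 0 < c) (hC : 1 ≤ C) (hl : 0 ≤ l₁)
    (hl₁ : 16 * C ^ 4 / c + 4 * C + c ≤ l₁ * c) (hδ : (l₁ + 2) * C ^ 3 * δ ≤ c / 16) (hδ1 : δ ≤ 1)
    (hy : 0 ≤ y) (hw : 0 ≤ w) (hn : y + w ≤ δ)
    (hA : c * (y ^ 2 * α ^ 2 + β ^ 2) ≤ LA)
    (hG : c * (w ^ 2 * α ^ 2 + γ ^ 2) - C * w ^ 2 * β ^ 2 ≤ LG)
    (hE : -(2 * (C * (((y + w) * α + β + γ) * (w * α + γ) +
      (y + w) * ((y + w) ^ 2 * α ^ 2 + β ^ 2 + γ ^ 2)))) ≤ E) :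
    c / 8 * ((y + w) ^ 2 * α ^ 2 + β ^ 2 + γ ^ 2) ≤ LA + E + l₁ * LG := by
  have hC0 : 0 ≤ C := by linarith
  have hδ0 : 0 ≤ δ := by linarith
  have hXY : ((y + w) * α + β + γ) = (y * α + β) + (w * α + γ) := by ring
  rw [hXY] at hE
  have hX2 : (y * α + β) ^ 2 ≤ 2 * (y ^ 2 * α ^ 2 + β ^ 2) := by
    have := sq_nonneg (y * α - β)
    linarith
  have hY2 : (w * α + γ) ^ 2 ≤ 2 * (w ^ 2 * α ^ 2 + γ ^ 2) := by
    have := sq_nonneg (w * α - γ)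
    linarith
  have hN2 : (y + w) ^ 2 * α ^ 2 + β ^ 2 + γ ^ 2 ≤
      2 * ((y ^ 2 * α ^ 2 + β ^ 2) + (w ^ 2 * α ^ 2 + γ ^ 2)) := by
    have := sq_nonneg ((y - w) * α)
    have := sq_nonneg β
    have := sq_nonneg γ
    linarith
  have a1 : w ^ 2 ≤ δ := by
    have : w * w ≤ δ * 1 := by gcongr <;> linarith
    linarith
  have a2 : β ^ 2 ≤ y ^ 2 * α ^ 2 + β ^ 2 := by
    have : 0 ≤ y ^ 2 * α ^ 2 := by positivity
    linarith
  have hP0 : 0 ≤ y ^ 2 * α ^ 2 + β ^ 2 := by positivity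
  have hQ0 : 0 ≤ w ^ 2 * α ^ 2 + γ ^ 2 := by positivity
  have hN0 : 0 ≤ (y + w) ^ 2 * α ^ 2 + β ^ 2 + γ ^ 2 := by positivity
  have hn0 : 0 ≤ y + w := by positivity
  generalize y ^ 2 * α ^ 2 + β ^ 2 = P at *
  generalize w ^ 2 * α ^ 2 + γ ^ 2 = Q at *
  generalize (y + w) ^ 2 * α ^ 2 + β ^ 2 + γ ^ 2 = N at *
  generalize y * α + β = X at *
  generalize w * α + γ = Y at *
  generalize y + w = n at *
  have hC2 : C ^ 2 ≤ C ^ 4 := pow_le_pow_right₀ hC (by norm_num)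
  have hC3 : C ≤ C ^ 3 := by simpa using pow_le_pow_right₀ hC (show 1 ≤ 3 by norm_num)
  have ham : 2 * C * (X * Y) ≤ c / 8 * X ^ 2 + 8 * C ^ 2 / c * Y ^ 2 := by
    have : c / 8 * X ^ 2 + 8 * C ^ 2 / c * Y ^ 2 - 2 * C * (X * Y) =
        8 / c * (c / 8 * X - C * Y) ^ 2 := by field_simp; ring
    have h2 : 0 ≤ 8 / c * (c / 8 * X - C * Y) ^ 2 := by positivity
    linarith
  have h1 : c / 8 * X ^ 2 ≤ c / 8 * (2 * P) := by gcongr
  have h2 : 8 * C ^ 2 / c * Y ^ 2 ≤ 16 * C ^ 4 / c * Q := by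
    calc 8 * C ^ 2 / c * Y ^ 2 ≤ 8 * C ^ 4 / c * (2 * Q) := by gcongr
      _ = 16 * C ^ 4 / c * Q := by ring
  have h3 : 2 * C * Y ^ 2 ≤ 2 * C * (2 * Q) := by gcongr
  have hCδ : C * δ ≤ C ^ 3 * δ := by gcongr
  have hC3δ : 0 ≤ C ^ 3 * δ := by positivity
  have hlδ : 0 ≤ l₁ * (C ^ 3 * δ) := by positivity
  have hd1 : 2 * (C * δ) ≤ c / 16 := by linarith
  have hd2 : l₁ * (C * δ) ≤ c / 16 := by
    have := mul_le_mul_of_nonneg_left hCδ hl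
    linarith
  have h4 : 2 * C * (n * N) ≤ c / 8 * (P + Q) := by
    calc 2 * C * (n * N) ≤ 2 * C * (δ * (2 * (P + Q))) := by gcongr
      _ = 2 * (C * δ) * (2 * (P + Q)) := by ring
      _ ≤ c / 16 * (2 * (P + Q)) := by gcongr
      _ = c / 8 * (P + Q) := by ring
  have h5 : l₁ * (C * w ^ 2 * β ^ 2) ≤ c / 16 * P := by
    calc l₁ * (C * w ^ 2 * β ^ 2) ≤ l₁ * (C * δ * P) := by gcongr
      _ = l₁ * (C * δ) * P := by ring
      _ ≤ c / 16 * P := by gcongr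
  have h6 := mul_le_mul_of_nonneg_left hG hl
  have h7 := mul_le_mul_of_nonneg_right hl₁ hQ0
  have h8 : c / 8 * N ≤ c / 8 * (2 * (P + Q)) := by gcongr
  have h9 : 0 ≤ c * P := by positivity
  have h10 : 0 ≤ c * Q := by positivity
  generalize 16 * C ^ 4 / c = K at *
  generalize 8 * C ^ 2 / c = K' at *
  linarith

theorem ineq_hs {c C l₁ δ y w β yq wq HA HG E : ℝ} (hc : 0 < c) (hC : 1 ≤ C) (hl : 0 ≤ l₁)
    (hl₁ : 16 * C ^ 4 / c + 4 * C + c ≤ l₁ * c) (hδ : (l₁ + 2) * C ^ 3 * δ ≤ c / 16)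
    (hw : 0 ≤ w) (hβ : 0 ≤ β) (hβy : β ≤ C * y) (hyq : 0 ≤ yq) (hwq : 0 ≤ wq)
    (hn : yq + wq ≤ δ) (hA : c * y ^ 2 - C * yq * β ^ 2 ≤ HA)
    (hG : c * w ^ 2 - C * wq * (β ^ 2 + w ^ 2) ≤ HG)
    (hE : -(C * ((β + w) * w + (yq + wq) * (β ^ 2 + w ^ 2))) ≤ E) :
    c / 2 * (y ^ 2 + w ^ 2) ≤ HA + E + l₁ * HG ∧ β ^ 2 + w ^ 2 ≤ C ^ 2 * (y ^ 2 + w ^ 2) := by
  set S := y ^ 2 + w ^ 2 with hS
  have hS0 : 0 ≤ S := by positivity
  have hC0 : 0 ≤ C := by linarith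
  have hδ0 : 0 ≤ δ := by linarith
  have hb : β ^ 2 ≤ C ^ 2 * y ^ 2 := by
    calc β ^ 2 ≤ (C * y) ^ 2 := by gcongr
      _ = C ^ 2 * y ^ 2 := by ring
  have hC2 : 1 ≤ C ^ 2 := one_le_pow₀ hC
  have hN : β ^ 2 + w ^ 2 ≤ C ^ 2 * S := by rw [hS]; nlinarith [sq_nonneg w]
  refine ⟨?_, hN⟩
  have h1 : C * yq * β ^ 2 ≤ C ^ 3 * δ * S := by
    calc C * yq * β ^ 2 ≤ C * δ * (C ^ 2 * S) := by
          gcongr
          · linarith
          · nlinarith [sq_nonneg w]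
      _ = C ^ 3 * δ * S := by ring
  have h2 : C * wq * (β ^ 2 + w ^ 2) ≤ C ^ 3 * δ * S := by
    calc C * wq * (β ^ 2 + w ^ 2) ≤ C * δ * (C ^ 2 * S) := by
          gcongr
          linarith
      _ = C ^ 3 * δ * S := by ring
  have h3 : C * ((yq + wq) * (β ^ 2 + w ^ 2)) ≤ C ^ 3 * δ * S := by
    calc C * ((yq + wq) * (β ^ 2 + w ^ 2)) ≤ C * (δ * (C ^ 2 * S)) := by gcongr
      _ = C ^ 3 * δ * S := by ring
  have h4 : C * (β * w) ≤ c / 4 * y ^ 2 + C ^ 4 / c * w ^ 2 := by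
    have : c / 4 * y ^ 2 + C ^ 4 / c * w ^ 2 - C * (C * y * w) =
        1 / c * (c / 2 * y - C ^ 2 * w) ^ 2 := by field_simp; ring
    have h2 : 0 ≤ 1 / c * (c / 2 * y - C ^ 2 * w) ^ 2 := by positivity
    have h3 : C * (β * w) ≤ C * (C * y * w) := by gcongr
    linarith
  have h5 := mul_le_mul_of_nonneg_left hG hl
  have h6 := mul_le_mul_of_nonneg_left h2 hl
  have h7 := mul_le_mul_of_nonneg_right hl₁ (sq_nonneg w)
  have h8 := mul_le_mul_of_nonneg_right hδ hS0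
  have h9 : 0 ≤ C ^ 4 / c * w ^ 2 := by positivity
  have h10 : 0 ≤ C * w ^ 2 := by positivity
  have h11 : 0 ≤ c * w ^ 2 := by positivity
  have h12 : 0 ≤ c * y ^ 2 := by positivity
  have e1 : 16 * C ^ 4 / c = 16 * (C ^ 4 / c) := by ring
  rw [e1] at h7
  rw [hS] at h8 h6 h1 h3 ⊢
  nlinarith

section lin

variable {X : Type} [NormedAddCommGroup X] [NormedSpace ℝ X]

theorem hs_T (hHS : SHS) {A E G : X → ℝ} {p : X} (l₁ : ℝ) (v : X) (hA : ContDiffAt ℝ 2 A p)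
    (hE : ContDiffAt ℝ 2 E p) (hG : ContDiffAt ℝ 2 G p) :
    hs (fun q => A q + E q + l₁ * G q) p v = hs A p v + hs E p v + l₁ * hs G p v := by
  have h1 := (hHS.add X (fun q => A q + E q) (fun q => l₁ * G q) p v (hA.add hE)
    (contDiffAt_const.mul hG)).1
  rw [h1, (hHS.add X A E p v hA hE).1, (hHS.cmul X G l₁ p v hG).1]

theorem hs_psi (hHS : SHS) {T R E : X → ℝ} {p : X} (l : ℝ) (v : X) (hT : ContDiffAt ℝ 2 T p)
    (hR : ContDiffAt ℝ 2 R p) (hE : ContDiffAt ℝ 2 E p) :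
    hs (fun q => l * T q - (R q + E q)) p v = l * hs T p v - (hs R p v + hs E p v) := by
  have h1 := (hHS.add X (fun q => l * T q) (fun q => R q + E q) p v (contDiffAt_const.mul hT)
    (hR.add hE)).2.1
  rw [h1, (hHS.add X R E p v hR hE).1, (hHS.cmul X T l p v hT).1]

theorem hs_lin (hHS : SHS) {Y : Type} [NormedAddCommGroup Y] [NormedSpace ℝ Y] (π : X →L[ℝ] Y)
    {g : Y → ℝ} {p : X} (v : X) (hg : ContDiffAt ℝ 2 g (π p)) :
    hs (fun q => g (π q)) p v = hs g (π p) (π v) := by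
  have h1 := hHS.chain X Y g π p v π.contDiff.contDiffAt hg
  have h2 : fderiv ℝ (π : X → Y) = fun _ => π := by
    funext q
    exact π.fderiv
  rw [h1, h2]
  simp

theorem hs_bd {R : X → ℝ} {p₀ : X} (hR : ContDiffAt ℝ ∞ R p₀) :
    ∃ C : ℝ, ∀ᶠ p in 𝓝 p₀, ∀ v, |hs R p v| ≤ C * ‖v‖ ^ 2 := by
  have h1 : ContDiffAt ℝ 1 (fderiv ℝ R) p₀ := hR.fderiv_right (by norm_cast)
  have h2 := (h1.fderiv_right (m := 0) (by norm_num)).continuousAt.norm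
  refine ⟨‖fderiv ℝ (fderiv ℝ R) p₀‖ + 1, ?_⟩
  have h3 : ∀ᶠ p in 𝓝 p₀, ‖fderiv ℝ (fderiv ℝ R) p‖ < ‖fderiv ℝ (fderiv ℝ R) p₀‖ + 1 :=
    Filter.Tendsto.eventually_lt_const (lt_add_one _) h2
  filter_upwards [h3] with p hp v
  calc |hs R p v| = ‖fderiv ℝ (fderiv ℝ R) p v v‖ := rfl
    _ ≤ ‖fderiv ℝ (fderiv ℝ R) p‖ * ‖v‖ * ‖v‖ := ContinuousLinearMap.le_opNorm₂ _ _ _
    _ = ‖fderiv ℝ (fderiv ℝ R) p‖ * ‖v‖ ^ 2 := by ring
    _ ≤ _ := by gcongr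

theorem fd_T {A E G : X → ℝ} {p : X} (l₁ : ℝ) (hA : ContDiffAt ℝ 2 A p)
    (hE : ContDiffAt ℝ 2 E p) (hG : ContDiffAt ℝ 2 G p) (h1 : fderiv ℝ A p = 0)
    (h2 : fderiv ℝ E p = 0) (h3 : fderiv ℝ G p = 0) :
    fderiv ℝ (fun q => A q + E q + l₁ * G q) p = 0 := by
  have a := (hA.differentiableAt (by norm_num)).hasFDerivAt
  have b := (hE.differentiableAt (by norm_num)).hasFDerivAt
  have c := (hG.differentiableAt (by norm_num)).hasFDerivAt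
  have := ((a.fun_add b).fun_add (c.const_mul l₁)).fderiv
  rw [h1, h2, h3] at this
  simpa using this

theorem fd_psi {T R E : X → ℝ} {p : X} (l : ℝ) (hT : ContDiffAt ℝ 2 T p)
    (hR : ContDiffAt ℝ 2 R p) (hE : ContDiffAt ℝ 2 E p) (h1 : fderiv ℝ T p = 0)
    (h2 : fderiv ℝ E p = 0) :
    fderiv ℝ (fun q => l * T q - (R q + E q)) p = -fderiv ℝ R p := by
  have a := (hT.differentiableAt (by norm_num)).hasFDerivAt
  have b := (hR.differentiableAt (by norm_num)).hasFDerivAt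
  have c := (hE.differentiableAt (by norm_num)).hasFDerivAt
  have := ((a.const_mul l).fun_sub (b.fun_add c)).fderiv
  rw [h1, h2] at this
  simpa using this

theorem fd_mul0 {a S : X → ℝ} {p : X} (ha : DifferentiableAt ℝ a p) (hS : DifferentiableAt ℝ S p)
    (h0 : S p = 0) (h1 : fderiv ℝ S p = 0) : fderiv ℝ (fun q => a q * S q) p = 0 := by
  rw [fderiv_fun_mul ha hS, h0, h1]
  simp

theorem rsq_cd {κ : Type} [Fintype κ] (L : X →L[ℝ] (κ → ℝ)) :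
    ContDiff ℝ ∞ fun q => rsq (L q) := by
  unfold rsq
  refine ContDiff.sum fun k _ => ContDiff.pow ?_ 2
  exact (contDiff_apply ℝ ℝ k).comp L.contDiff

theorem rsq_fd {κ : Type} [Fintype κ] (L : X →L[ℝ] (κ → ℝ)) {p : X} (hp : L p = 0) :
    rsq (L p) = 0 ∧ fderiv ℝ (fun q => rsq (L q)) p = 0 := by
  have h0 : rsq (L p) = 0 := by simp [rsq, hp]
  refine ⟨h0, IsLocalMin.fderiv_eq_zero (Eventually.of_forall fun q => ?_)⟩
  change rsq (L p) ≤ rsq (L q)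
  rw [h0]
  exact Finset.sum_nonneg fun k _ => sq_nonneg _

end lin

end Pool.Agent.MP_fcd29e_an.H85
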