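import Pool.Agent.MP_fcd29e_an.H85.CLOa

/-!
The local theorem from pointwise bounds on a ball.
-/

set_option autoImplicit false

open Complex Set Filter Topology Metric Pool.Agent.MP_fcd29e_an.H11
open scoped ContDiff

namespace Pool.Agent.MP_fcd29e_an.H85

variable {U W κ : Type} [NormedAddCommGroup U] [NormedSpace ℝ U] [NormedSpace ℂ U]
  [IsScalarTower ℝ ℂ U] [NormedAddCommGroup W] [NormedSpace ℝ W] [NormedSpace ℂ W]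
  [IsScalarTower ℝ ℂ W] [Fintype κ]

/-- The pointwise bounds. -/
structure Pt (Jr : U →L[ℝ] (κ → ℝ)) (A E G R ER : ℂ × U × W → ℝ) (c C : ℝ) (p : ℂ × U × W) :
    Prop where
  sA : ContDiffAt ℝ 2 A p
  sE : ContDiffAt ℝ 2 E p
  sG : ContDiffAt ℝ 2 G p
  sR : ContDiffAt ℝ 2 R p
  sER : ContDiffAt ℝ 2 ER p
  lA : ∀ v : ℂ × U × W, c * (‖Jr p.2.1‖ ^ 2 * ‖v.1‖ ^ 2 + ‖v.2.1‖ ^ 2) ≤ lev A p v
  hA : ∀ v : ℂ × U × W, v.1 = 0 →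
    c * ‖Jr v.2.1‖ ^ 2 - C * ‖Jr p.2.1‖ * ‖v.2.1‖ ^ 2 ≤ hs A p v
  lG : ∀ v : ℂ × U × W, c * (‖p.2.2‖ ^ 2 * ‖v.1‖ ^ 2 + ‖v.2.2‖ ^ 2) -
    C * ‖p.2.2‖ ^ 2 * ‖v.2.1‖ ^ 2 ≤ lev G p v
  hG : ∀ v : ℂ × U × W, v.1 = 0 →
    c * ‖v.2.2‖ ^ 2 - C * ‖p.2.2‖ * (‖v.2.1‖ ^ 2 + ‖v.2.2‖ ^ 2) ≤ hs G p v
  hE : ∀ v : ℂ × U × W, |hs E p v| ≤
    C * ((nn Jr p * ‖v.1‖ + ‖v.2.1‖ + ‖v.2.2‖) * (‖p.2.2‖ * ‖v.1‖ + ‖v.2.2‖) +
      nn Jr p * (nn Jr p ^ 2 * ‖v.1‖ ^ 2 + ‖v.2.1‖ ^ 2 + ‖v.2.2‖ ^ 2))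
  hER : ∀ v : ℂ × U × W,
    |hs ER p v| ≤ C * (nn Jr p ^ 2 * ‖v.1‖ ^ 2 + ‖v.2.1‖ ^ 2 + ‖v.2.2‖ ^ 2)
  lR : ∀ v, lev R p v = 0
  hR : ∀ v, |hs R p v| ≤ C * ‖v‖ ^ 2
  onK : p ∈ Kc Jr → (A p = 0 ∧ E p = 0 ∧ G p = 0 ∧ R p = 0 ∧ ER p = 0) ∧
    fderiv ℝ A p = 0 ∧ fderiv ℝ E p = 0 ∧ fderiv ℝ G p = 0 ∧ fderiv ℝ ER p = 0 ∧ fderiv ℝ R p ≠ 0

omit [NormedSpace ℝ U] [IsScalarTower ℝ ℂ U] [NormedSpace ℝ W] [IsScalarTower ℝ ℂ W] in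
theorem norm_I (v : ℂ × U × W) :
    ‖(I • v).1‖ = ‖v.1‖ ∧ ‖(I • v).2.1‖ = ‖v.2.1‖ ∧ ‖(I • v).2.2‖ = ‖v.2.2‖ := by
  simp [norm_smul]

variable {Jr : U →L[ℝ] (κ → ℝ)} {A E G R ER : ℂ × U × W → ℝ} {c C l₁ δ : ℝ}

theorem Pt.sT {p : ℂ × U × W} (h : Pt Jr A E G R ER c C p) (l₁ : ℝ) :
    ContDiffAt ℝ 2 (fun q => A q + E q + l₁ * G q) p :=
  (h.sA.add h.sE).add (contDiffAt_const.mul h.sG)

theorem Pt.lev_nonneg (hHS : SHS) {p : ℂ × U × W} (h : Pt Jr A E G R ER c C p) (hc : 0 < c)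
    (hC : 1 ≤ C) (hl : 0 ≤ l₁) (hl₁ : 16 * C ^ 4 / c + 4 * C + c ≤ l₁ * c)
    (hδ : (l₁ + 2) * C ^ 3 * δ ≤ c / 16) (hδ1 : δ ≤ 1) (hn : nn Jr p ≤ δ) {l : ℝ}
    (hl0 : 0 ≤ l) (hΛ : 16 * C ≤ l * c) (v : ℂ × U × W) :
    0 ≤ lev (fun q => l * (A q + E q + l₁ * G q) - (R q + ER q)) p v := by
  obtain ⟨e1, e2, e3⟩ := norm_I v
  have hE1 := (abs_le.1 (h.hE v)).1
  have hE2 := (abs_le.1 (h.hE (I • v))).1
  have hR1 := (abs_le.1 (h.hER v)).2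
  have hR2 := (abs_le.1 (h.hER (I • v))).2
  rw [e1, e2, e3] at hE2 hR2
  have key := ineq_lev (E := hs E p v + hs E p (I • v)) hc hC hl hl₁ hδ hδ1 (norm_nonneg _)
    (norm_nonneg _) hn (h.lA v) (h.lG v) (by
      unfold nn at hE1 hE2
      linarith)
  have h0 := h.lR v
  unfold lev at key h0 ⊢
  rw [hs_psi hHS l v (h.sT l₁) h.sR h.sER, hs_psi hHS l (I • v) (h.sT l₁) h.sR h.sER,
    hs_T hHS l₁ v h.sA h.sE h.sG, hs_T hHS l₁ (I • v) h.sA h.sE h.sG]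
  unfold nn at hR1 hR2
  have hN : 0 ≤ (‖Jr p.2.1‖ + ‖p.2.2‖) ^ 2 * ‖v.1‖ ^ 2 + ‖v.2.1‖ ^ 2 + ‖v.2.2‖ ^ 2 := by
    positivity
  generalize (‖Jr p.2.1‖ + ‖p.2.2‖) ^ 2 * ‖v.1‖ ^ 2 + ‖v.2.1‖ ^ 2 + ‖v.2.2‖ ^ 2 = N at *
  have h1 := mul_le_mul_of_nonneg_left key hl0
  have h2 := mul_le_mul_of_nonneg_right hΛ hN
  linarith

theorem Pt.hs_pos (hHS : SHS) {q : ℂ × U × W} (h : Pt Jr A E G R ER c C q) (hc : 0 < c)
    (hC : 1 ≤ C) (hl : 0 ≤ l₁) (hl₁ : 16 * C ^ 4 / c + 4 * C + c ≤ l₁ * c)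
    (hδ : (l₁ + 2) * C ^ 3 * δ ≤ c / 16) (hn : nn Jr q ≤ δ) (η : U) (w : W)
    (hη : ‖η‖ ≤ C * ‖Jr η‖) (hpos : 0 < ‖Jr η‖ ^ 2 + ‖w‖ ^ 2) :
    0 < hs (fun q => A q + E q + l₁ * G q) q (0, η, w) ∧ ∀ l : ℝ, 0 ≤ l → 16 * C ^ 3 ≤ l * c →
      0 < hs (fun q => l * (A q + E q + l₁ * G q) - (R q + ER q)) q (0, η, w) := by
  have hE1 := (abs_le.1 (h.hE (0, η, w))).1
  have hR1 := (abs_le.1 (h.hER (0, η, w))).2
  have hR2 := (abs_le.1 (h.hR (0, η, w))).2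
  have hv : ‖((0 : ℂ), η, w)‖ ^ 2 ≤ ‖η‖ ^ 2 + ‖w‖ ^ 2 := by
    have a := sq_nonneg ‖η‖
    have b := sq_nonneg ‖w‖
    simp only [Prod.norm_mk, norm_zero]
    rw [max_eq_right (le_max_of_le_left (norm_nonneg _))]
    rcases le_total ‖η‖ ‖w‖ with h1 | h1
    · rw [max_eq_right h1]
      linarith
    · rw [max_eq_left h1]
      linarith
  simp only [norm_zero] at hE1 hR1
  obtain ⟨key, hN⟩ := ineq_hs (E := hs E q (0, η, w)) hc hC hl hl₁ hδ (norm_nonneg w)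
    (norm_nonneg η) hη (norm_nonneg _) (norm_nonneg _) hn (h.hA (0, η, w) rfl)
    (h.hG (0, η, w) rfl) (by
      unfold nn at hE1
      linarith)
  have hC0 : 0 < C := by linarith
  have hT : c / 2 * (‖Jr η‖ ^ 2 + ‖w‖ ^ 2) ≤ hs (fun q => A q + E q + l₁ * G q) q (0, η, w) := by
    rw [hs_T hHS l₁ _ h.sA h.sE h.sG]
    exact key
  refine ⟨lt_of_lt_of_le (by positivity) hT, fun l hl0 hΛ => ?_⟩
  rw [hs_psi hHS l _ (h.sT l₁) h.sR h.sER]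
  have h1 := mul_le_mul_of_nonneg_left hT hl0
  have h2 := mul_le_mul_of_nonneg_right hΛ hpos.le
  have h3 := mul_le_mul_of_nonneg_left hN hC0.le
  have h4 := mul_le_mul_of_nonneg_left hv hC0.le
  have h5 : 0 < C ^ 3 * (‖Jr η‖ ^ 2 + ‖w‖ ^ 2) := by positivity
  generalize ‖Jr η‖ ^ 2 + ‖w‖ ^ 2 = S at *
  linarith

theorem core (hHS : SHS) {p₀ : ℂ × U × W} {r : ℝ} (hr : 0 < r) (hc : 0 < c) (hC : 1 ≤ C)
    (hσ : ∀ u, ∃ η, Jr η = Jr u ∧ ‖η‖ ≤ C * ‖Jr u‖)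
    (h : ∀ p ∈ ball p₀ r, Pt Jr A E G R ER c C p) :
    ∃ Λ₁ : ℝ, ∃ O ∈ 𝓝 p₀, ∀ l₁ ≥ Λ₁, ∃ δ Λ : ℝ, 0 < δ ∧ ∀ p ∈ O, nn Jr p < δ →
      (p ∉ Kc Jr → 0 < A p + E p + l₁ * G p) ∧
      ∀ l ≥ Λ, ∀ ψ : ℂ × U × W → ℝ, (ψ = fun q => l * (A q + E q + l₁ * G q) - (R q + ER q)) →
        (∀ v, 0 ≤ lev ψ p v) ∧ (ψ p = 0 → fderiv ℝ ψ p ≠ 0) := by
  have hC0 : 0 < C := by linarith
  refine ⟨(16 * C ^ 4 / c + 4 * C + c) / c, ball p₀ (r / 2), ball_mem_nhds _ (by positivity),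
    fun l₁ hl₁ => ?_⟩
  have hl : 0 ≤ l₁ := le_trans (by positivity) hl₁
  have hl₁' : 16 * C ^ 4 / c + 4 * C + c ≤ l₁ * c := (div_le_iff₀ hc).1 hl₁
  obtain ⟨δ, hδ0, hδ1, hδ2, hδ⟩ : ∃ δ : ℝ, 0 < δ ∧ δ ≤ 1 ∧ C * δ ≤ r / 2 ∧
      (l₁ + 2) * C ^ 3 * δ ≤ c / 16 := by
    refine ⟨min 1 (min (r / 2 / C) (c / 16 / ((l₁ + 2) * C ^ 3))), by positivity,
      min_le_left _ _, ?_, ?_⟩
    · rw [mul_comm, ← le_div_iff₀ hC0]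
      exact (min_le_right _ _).trans (min_le_left _ _)
    · rw [mul_comm, ← le_div_iff₀ (by positivity)]
      exact (min_le_right _ _).trans (min_le_right _ _)
  refine ⟨δ, 16 * C ^ 3 / c, hδ0, fun p hp hn => ?_⟩
  have hp' : p ∈ ball p₀ r := ball_subset_ball (by linarith) hp
  obtain ⟨η, hη1, hη2⟩ := hσ p.2.1
  -- the segment from the foot point
  set v : ℂ × U × W := (0, η, p.2.2) with hv
  set f₀ : ℂ × U × W := (p.1, p.2.1 - η, 0) with hf₀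
  have hend : f₀ + (1 : ℝ) • v = p := by simp [hv, hf₀]
  have hbeg : f₀ + (0 : ℝ) • v = f₀ := by simp
  have hK : f₀ ∈ Kc Jr := ⟨by simp [hf₀, hη1], rfl⟩
  have hy : ‖Jr p.2.1‖ < δ := lt_of_le_of_lt (le_add_of_nonneg_right (norm_nonneg _)) hn
  have hw : ‖p.2.2‖ < δ := lt_of_le_of_lt (le_add_of_nonneg_left (norm_nonneg _)) hn
  have hvn : ‖v‖ ≤ r / 2 := by
    have a : C * ‖Jr p.2.1‖ ≤ C * δ := by gcongr
    have b : 1 * δ ≤ C * δ := by gcongr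
    simp only [hv, Prod.norm_mk, norm_zero, max_le_iff]
    exact ⟨by positivity, by linarith, by linarith⟩
  have hseg : ∀ τ ∈ Icc (0 : ℝ) 1, f₀ + τ • v ∈ ball p₀ r ∧ nn Jr (f₀ + τ • v) ≤ δ := by
    intro τ hτ
    constructor
    · have e : f₀ + τ • v = p - (1 - τ) • v := by
        rw [← hend, sub_smul, one_smul]
        abel
      have a : ‖(1 - τ) • v‖ ≤ r / 2 := by
        rw [norm_smul, Real.norm_eq_abs, abs_of_nonneg (by linarith [hτ.2])]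
        have := mul_le_mul_of_nonneg_right (show 1 - τ ≤ 1 by linarith [hτ.1]) (norm_nonneg v)
        linarith
      rw [e, mem_ball, dist_eq_norm, sub_right_comm]
      rw [mem_ball, dist_eq_norm] at hp
      have := norm_sub_le (p - p₀) ((1 - τ) • v)
      linarith
    · have e1 : Jr (f₀ + τ • v).2.1 = τ • Jr p.2.1 := by simp [hv, hf₀, hη1]
      have e2 : (f₀ + τ • v).2.2 = τ • p.2.2 := by simp [hv, hf₀]
      unfold nn at hn ⊢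
      rw [e1, e2, norm_smul, norm_smul, Real.norm_eq_abs, abs_of_nonneg hτ.1, ← mul_add]
      have := mul_le_mul_of_nonneg_right hτ.2 (add_nonneg (norm_nonneg (Jr p.2.1))
        (norm_nonneg p.2.2))
      linarith
  have hf := h f₀ (hbeg ▸ (hseg 0 (left_mem_Icc.2 zero_le_one)).1)
  obtain ⟨⟨z1, z2, z3, z4, z5⟩, d1, d2, d3, d4, -⟩ := hf.onK hK
  have hpos : p ∉ Kc Jr → 0 < ‖Jr η‖ ^ 2 + ‖p.2.2‖ ^ 2 := by
    intro hpK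
    rw [hη1]
    by_contra hle
    have a := sq_nonneg ‖Jr p.2.1‖
    have b := sq_nonneg ‖p.2.2‖
    have a' : ‖Jr p.2.1‖ ^ 2 = 0 := by linarith
    have b' : ‖p.2.2‖ ^ 2 = 0 := by linarith
    exact hpK ⟨by simpa using a', by simpa using b'⟩
  have hη3 : ‖η‖ ≤ C * ‖Jr η‖ := hη1 ▸ hη2
  constructor
  · intro hpK
    have := (conv1 (fun a => (fun q => A q + E q + l₁ * G q) (f₀ + a • v))
      (fun a => fderiv ℝ (fun q => A q + E q + l₁ * G q) (f₀ + a • v) v)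
      (fun a => hs (fun q => A q + E q + l₁ * G q) (f₀ + a • v) v) (fun τ hτ => ?_) ?_).1 ?_
    · simpa only [hend] using this
    · obtain ⟨b1, b2⟩ := hseg τ hτ
      have hl := hHS.line _ _ f₀ v τ ((h _ b1).sT l₁)
      exact ⟨hl.1, hl.2, ((h _ b1).hs_pos hHS hc hC ‹_› hl₁' hδ b2 η p.2.2 hη3 (hpos hpK)).1⟩
    · simp only [hbeg, z1, z2, z3]
      ring
    · simp only [hbeg]
      rw [fd_T l₁ hf.sA hf.sE hf.sG d1 d2 d3]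
      rfl
  · intro l hΛ ψ hψ
    have hl0 : 0 ≤ l := le_trans (by positivity) hΛ
    have hΛ' : 16 * C ^ 3 ≤ l * c := (div_le_iff₀ hc).1 hΛ
    have hC3 : C ≤ C ^ 3 := by simpa using pow_le_pow_right₀ hC (show 1 ≤ 3 by norm_num)
    subst hψ
    refine ⟨(h p hp').lev_nonneg hHS hc hC hl hl₁' hδ hδ1 hn.le hl0 (by linarith), fun h0 => ?_⟩
    by_cases hpK : p ∈ Kc Jr
    · obtain ⟨-, e1, e2, e3, e4, e5⟩ := (h p hp').onK hpK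
      have hq := h p hp'
      rw [fd_psi l (hq.sT l₁) hq.sR hq.sER (fd_T l₁ hq.sA hq.sE hq.sG e1 e2 e3) e4]
      exact neg_ne_zero.2 e5
    · have := (conv1 (fun a => (fun q => l * (A q + E q + l₁ * G q) - (R q + ER q)) (f₀ + a • v))
        (fun a => fderiv ℝ (fun q => l * (A q + E q + l₁ * G q) - (R q + ER q)) (f₀ + a • v) v)
        (fun a => hs (fun q => l * (A q + E q + l₁ * G q) - (R q + ER q)) (f₀ + a • v) v)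
        (fun τ hτ => ?_) ?_).2 ?_
      · intro hz
        simp only [hend, hz] at this
        simp at this
      · obtain ⟨b1, b2⟩ := hseg τ hτ
        have hq := h _ b1
        have hl' := hHS.line _ _ f₀ v τ
          ((contDiffAt_const (c := l).mul (hq.sT l₁)).sub (hq.sR.add hq.sER))
        exact ⟨hl'.1, hl'.2,
          (hq.hs_pos hHS hc hC hl hl₁' hδ b2 η p.2.2 hη3 (hpos hpK)).2 l hl0 hΛ'⟩
      · simp only [hbeg, z1, z2, z3, z4, z5]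
        ring
      · simpa only [hend] using h0

end Pool.Agent.MP_fcd29e_an.H85
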